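import Pool.Agent.H90.NF.NPM
import Pool.Agent.H41.PNF.YTR

/-!
# PNF: row YPM, the number of the pairs of a pattern in large boxes
-/

set_option autoImplicit false

namespace Pool.PNF

open Real Matrix NumberField IsDedekindDomain Pool.T1 Pool.HYP Pool.NF Pool.PRK Pool.AVS

/-- YPM. -/
theorem ypm : YPMStmt := by
  intro hBXU hYPR hCTX hFBK hP3K K _ _ C hC
  obtain ⟨a, ha, hb⟩ := hBXU K
  set n := dg K with hn
  refine ⟨2 * ((a ^ 6 * ((1 + (C * exp (4 * C)) ^ n) ^ 4 * (2 * (C * exp C) ^ n) *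
        (2 * (C * exp (3 * C)) ^ n))) * ((2 * a) ^ 6 * (C ^ 6 * exp (4 * C)) ^ n)),
        by positivity, ?_⟩
  intro D y w d x hok hw hd hx h1
  obtain ⟨hdl1, hdln, -, -⟩ := ytr K C x D y w d hx
  have hC0 : 0 ≤ C := by linarith
  have hx0 : 0 ≤ x := by linarith
  set δ : ℝ := dl D.T y with hδ
  set m : ℕ := ∏ P ∈ odd D.T y, Nm P with hm
  have hx' : 0 ≤ x * δ := by positivity
  have htop := fun ρ hρ => hb ⊤ top_ne_bot 0 ρ hρ
  have e : ∀ ρ : ℝ, {x ∈ Bx K ρ | x - 0 ∈ (⊤ : Ideal (𝓞 K))} = Bx K ρ := by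
    intro ρ; ext x; simp
  simp only [e, Ni_top, Nat.cast_one, div_one] at htop
  have hPne : ∀ P : HeightOneSpectrum (𝓞 K), P.asIdeal ≠ ⊥ := fun P => P.ne_bot
  have hF : ∀ P : HeightOneSpectrum (𝓞 K), Finite (𝓞 K ⧸ P.asIdeal) := fun P =>
    Ideal.finiteQuotientOfFreeOfNeBot _ (hPne P)
  have hNmpos : ∀ P : HeightOneSpectrum (𝓞 K), 0 < Nm P := fun P => by
    have := hF P
    have : Nontrivial (𝓞 K ⧸ P.asIdeal) := Ideal.Quotient.nontrivial_iff.2 P.isPrime.ne_top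
    exact Nat.card_pos
  have hNpos : 0 < D.N := Finset.prod_pos fun P _ => hNmpos P
  have hmpos : 0 < m := Finset.prod_pos fun P _ => hNmpos P
  set J : Ideal (𝓞 K) := (∏ P ∈ D.T, P.asIdeal) * ∏ P ∈ odd D.T y, P.asIdeal ^ 2 with hJ
  have hJne : J ≠ ⊥ := by
    intro h0
    rw [← Ideal.zero_eq_bot, hJ, mul_eq_zero] at h0
    rcases h0 with h0 | h0
    · obtain ⟨P, -, hP⟩ := Finset.prod_eq_zero_iff.1 h0
      exact hPne P hP
    · obtain ⟨P, -, hP⟩ := Finset.prod_eq_zero_iff.1 h0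
      exact hPne P (pow_eq_zero_iff two_ne_zero |>.1 hP)
  have hNJ : (Ni J : ℝ) = (((∏ P ∈ D.T, Nm P) * ∏ P ∈ odd D.T y, Nm P ^ 2 : ℕ) : ℝ) := by
    have h2 : Ni J = (∏ P ∈ D.T, Nm P) * ∏ P ∈ odd D.T y, Nm P ^ 2 := by
      have g1 : Ideal.absNorm (∏ P ∈ D.T, P.asIdeal) = ∏ P ∈ D.T, Nm P := by
        rw [map_prod]
        exact Finset.prod_congr rfl fun P _ => (Ni_eq_absNorm P.asIdeal).symm
      have g2 : Ideal.absNorm (∏ P ∈ odd D.T y, P.asIdeal ^ 2) =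
          ∏ P ∈ odd D.T y, Nm P ^ 2 := by
        rw [map_prod]
        refine Finset.prod_congr rfl fun P _ => ?_
        rw [map_pow, ← Ni_eq_absNorm P.asIdeal]
        rfl
      rw [Ni_eq_absNorm, hJ, map_mul, g1, g2]
    rw [h2]
  have hNJ2 : (Ni J : ℝ) = (D.N : ℝ) * (m : ℝ) ^ 2 := by
    have h3 : (((∏ P ∈ D.T, Nm P) * ∏ P ∈ odd D.T y, Nm P ^ 2 : ℕ)) = D.N * m ^ 2 := by
      rw [Finset.prod_pow]
      rfl
    rw [hNJ, h3]
    push_cast
    rfl
  have hNJ0 : (0 : ℝ) < Ni J := by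
    rw [hNJ2]
    have : (0 : ℝ) < D.N := by exact_mod_cast hNpos
    have : (0 : ℝ) < m := by exact_mod_cast hmpos
    positivity
  have hmono : ∀ i j : Fin 3, C * (x * δ) * exp (2 * d 0) ≤ C * (x * δ) * exp (d i + d j) := by
    intro i j
    refine mul_le_mul_of_nonneg_left (exp_le_exp.2 ?_) (by positivity)
    have h0i : d 0 ≤ d i := hd.1 (Fin.zero_le i)
    have h0j : d 0 ≤ d j := hd.1 (Fin.zero_le j)
    linarith
  have key := hYPR hCTX hFBK hP3K (𝓞 K) 1 D.T y D.c D.γ w le_rfl hF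
    (fun P hP => (hok P hP).2.1) (fun P hP => (hok P hP).1)
    (fun P hP => (hok P hP).2.2) hw.2.1 hw.2.2
    (fun i j => Bx K (C * exp (d i + d j))) (fun i j => Bx K (C * (x * δ) * exp (d i + d j)))
    (fun i j => a * (1 + (C * exp (d i + d j)) ^ n))
    (fun i j => 2 * a * (C * (x * δ) * exp (d i + d j)) ^ n)
    (fun i j => (htop _ (by positivity)).1) (fun i j => (htop _ (by positivity)).1)
    (fun i j _ => (htop _ (by positivity)).2)
    (fun i j _ J' r hJ' => by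
      subst hJ'
      have h2 := (hb J hJne r (C * (x * δ) * exp (d i + d j)) (by positivity)).2
      rw [← hNJ]
      have h4 : (Ni J : ℝ) ≤ (C * (x * δ) * exp (d i + d j)) ^ n := by
        rw [hNJ2]
        exact h1.trans (pow_le_pow_left₀ (by positivity) (hmono i j) n)
      calc _ ≤ a * (1 + (C * (x * δ) * exp (d i + d j)) ^ n / Ni J) * Ni J :=
            mul_le_mul_of_nonneg_right h2 hNJ0.le
        _ = a * (Ni J + (C * (x * δ) * exp (d i + d j)) ^ n) := by field_simp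
        _ ≤ a * ((C * (x * δ) * exp (d i + d j)) ^ n + (C * (x * δ) * exp (d i + d j)) ^ n) := by
          gcongr
        _ = _ := by ring)
    (PPy C x D y w d)
    (by
      rintro p ⟨p1, p2, p3, p4, p5⟩
      exact ⟨p1, p2, p3, p4, p5⟩)
  refine ⟨key.1, ?_⟩
  have h5 := key.2
  have e1 : Cnt.prLe (fun i j : Fin (2 * 1 + 1) => a * (1 + (C * exp (d i + d j)) ^ n)) =
      (fun i j : Fin 3 => a * (1 + (C * exp (d i + d j)) ^ n)) 0 0 *
      (fun i j : Fin 3 => a * (1 + (C * exp (d i + d j)) ^ n)) 0 1 *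
      (fun i j : Fin 3 => a * (1 + (C * exp (d i + d j)) ^ n)) 0 2 *
      (fun i j : Fin 3 => a * (1 + (C * exp (d i + d j)) ^ n)) 1 1 *
      (fun i j : Fin 3 => a * (1 + (C * exp (d i + d j)) ^ n)) 1 2 *
      (fun i j : Fin 3 => a * (1 + (C * exp (d i + d j)) ^ n)) 2 2 := by
    simp [Cnt.prLe, Fin.prod_univ_three, mul_assoc]
  have e2 : Cnt.prLe (fun i j : Fin (2 * 1 + 1) =>
        2 * a * (C * (x * δ) * exp (d i + d j)) ^ n) =
      (fun i j : Fin 3 => 2 * a * (C * (x * δ) * exp (d i + d j)) ^ n) 0 0 *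
      (fun i j : Fin 3 => 2 * a * (C * (x * δ) * exp (d i + d j)) ^ n) 0 1 *
      (fun i j : Fin 3 => 2 * a * (C * (x * δ) * exp (d i + d j)) ^ n) 0 2 *
      (fun i j : Fin 3 => 2 * a * (C * (x * δ) * exp (d i + d j)) ^ n) 1 1 *
      (fun i j : Fin 3 => 2 * a * (C * (x * δ) * exp (d i + d j)) ^ n) 1 2 *
      (fun i j : Fin 3 => 2 * a * (C * (x * δ) * exp (d i + d j)) ^ n) 2 2 := by
    simp [Cnt.prLe, Fin.prod_univ_three, mul_assoc]
  rw [e1, e2] at h5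
  have c2 := est_G n C hC d hd (fun i j => a * (1 + (C * exp (d i + d j)) ^ n))
    (fun i j => by positivity) a ha.le (fun i j => le_rfl)
  have c3 := est_S n C (x * δ) hC hx' d hd (fun i j => 2 * a * (C * (x * δ) * exp (d i + d j)) ^ n)
    (fun i j => by positivity) (2 * a) (by positivity) (fun i j => le_rfl)
  have hm0 : (0 : ℝ) < m := by exact_mod_cast hmpos
  have hxm : (x * δ) ^ (6 * n) = x ^ (6 * n) * (m : ℝ) ^ 6 := by
    rw [mul_pow]
    congr 1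
    rw [mul_comm 6 n, pow_mul, hdln]
  rw [hxm] at c3
  have h6 : 2 ^ D.T.card * ((PPy C x D y w d).ncard : ℝ) * (D.N : ℝ) ^ 3 * (m : ℝ) ^ 6 ≤
      (2 * ((a ^ 6 * ((1 + (C * exp (4 * C)) ^ n) ^ 4 * (2 * (C * exp C) ^ n) *
        (2 * (C * exp (3 * C)) ^ n))) * ((2 * a) ^ 6 * (C ^ 6 * exp (4 * C)) ^ n)) *
        x ^ (6 * n) * exp (-(3 * n) * d 0)) * (m : ℝ) ^ 6 := by
    refine h5.trans ?_
    calc _ ≤ 2 * (_ * _) := mul_le_mul_of_nonneg_left (mul_le_mul c2 c3 (by positivity)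
          (by positivity)) zero_le_two
      _ = _ := by ring
  exact le_of_mul_le_mul_right h6 (by positivity)

end Pool.PNF
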